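import Pool.Agent.W420.NS.FStm

set_option autoImplicit false

namespace Pool.Agent.W236.NS

open Pool.Agent.W420.NS

theorem rn_nil (x : ℕ) : rn [] x = 0 := rfl

theorem rn_cons (i : ℕ) (σ : List ℕ) (x : ℕ) : rn (i :: σ) x = x / 8 ^ i % 8 + 8 * rn σ x := rfl

theorem negD_zero (x : ℕ) : negD 0 x = 0 := rfl

theorem negD_succ (s x : ℕ) : negD (s + 1) x = neg (x % 8) + 8 * negD s (x / 8) := rfl

theorem unz_zero (x m : ℕ) : unz 0 x m = [] := rfl

theorem unz_succ (k x m : ℕ) : unz (k + 1) x m = (x % 8, m % 8) :: unz k (x / 8) (m / 8) := rfl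

theorem unz_get (k : ℕ) : ∀ (x m i : ℕ), i < k →
    (unz k x m)[i]? = some (x / 8 ^ i % 8, m / 8 ^ i % 8) := by
  induction k with
  | zero => intro x m i hi; omega
  | succ k ih =>
    intro x m i hi
    rw [unz_succ]
    rcases i with _ | i
    · simp
    · rw [List.getElem?_cons_succ, ih _ _ _ (by omega), Nat.div_div_eq_div_mul,
        Nat.div_div_eq_div_mul, ← pow_succ']

theorem ord_cons (i : ℕ) (σ : List ℕ) (l : St) (v : ℕ × ℕ) (h : l[i]? = some v) :
    ord (i :: σ) l = v :: ord σ l := by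
  unfold ord
  rw [List.filterMap_cons, h]

theorem ford1 (k : ℕ) (σ : List ℕ) (x m : ℕ) (h : ∀ i ∈ σ, i < k) :
    ord σ (unz k x m) = unz σ.length (rn σ x) (rn σ m) := by
  induction σ with
  | nil => rfl
  | cons i σ ih =>
    rw [ord_cons i σ _ _ (unz_get k x m i (h i (by simp))),
      ih (fun j hj => h j (List.mem_cons_of_mem _ hj)), List.length_cons, unz_succ, rn_cons,
      rn_cons]
    have a1 : (x / 8 ^ i % 8 + 8 * rn σ x) % 8 = x / 8 ^ i % 8 := by omega
    have a2 : (x / 8 ^ i % 8 + 8 * rn σ x) / 8 = rn σ x := by omega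
    have b1 : (m / 8 ^ i % 8 + 8 * rn σ m) % 8 = m / 8 ^ i % 8 := by omega
    have b2 : (m / 8 ^ i % 8 + 8 * rn σ m) / 8 = rn σ m := by omega
    rw [a1, a2, b1, b2]

theorem ford : S_FORD := by
  intro k σ x m h
  refine ⟨ford1 k σ x m h, ?_, ?_⟩
  · clear h
    induction σ with
    | nil => simp [rn_nil]
    | cons i σ ih =>
      rw [rn_cons, List.length_cons, pow_succ']
      omega
  · intro hc y hy
    rw [← ford1 k σ x m h] at hy
    unfold ord at hy
    rw [List.mem_filterMap] at hy
    obtain ⟨i, _, hi⟩ := hy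
    exact hc y (List.mem_of_getElem? hi)

theorem fdig : S_FDIG := by
  refine ⟨?_, ?_, ?_, ?_⟩
  · intro s
    induction s with
    | zero => intro k x m _; simp
    | succ s ih =>
      intro k x m hk
      obtain ⟨k, rfl⟩ : ∃ k', k = k' + 1 := ⟨k - 1, by omega⟩
      rw [unz_succ, List.drop_succ_cons, ih k _ _ (by omega), Nat.div_div_eq_div_mul,
        Nat.div_div_eq_div_mul, ← pow_succ']
      congr 1
      omega
  · intro k
    induction k with
    | zero =>
      intro l x y m n hx hm
      rw [pow_zero] at hx hm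
      have hx0 : x = 0 := by omega
      have hm0 : m = 0 := by omega
      subst hx0 hm0
      simp [unz_zero]
    | succ k ih =>
      intro l x y m n hx hm
      rw [pow_succ'] at hx hm
      have e : k + 1 + l = (k + l) + 1 := by omega
      rw [e, unz_succ, unz_succ, List.cons_append, ih l (x / 8) y (m / 8) n (by omega) (by omega)]
      have e1 : 8 ^ (k + 1) * y = 8 * (8 ^ k * y) := by rw [pow_succ']; ring
      have e2 : 8 ^ (k + 1) * n = 8 * (8 ^ k * n) := by rw [pow_succ']; ring
      rw [e1, e2]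
      have a1 : (x + 8 * (8 ^ k * y)) % 8 = x % 8 := by omega
      have a2 : (x + 8 * (8 ^ k * y)) / 8 = x / 8 + 8 ^ k * y := by omega
      have b1 : (m + 8 * (8 ^ k * n)) % 8 = m % 8 := by omega
      have b2 : (m + 8 * (8 ^ k * n)) / 8 = m / 8 + 8 ^ k * n := by omega
      rw [a1, a2, b1, b2]
  · intro k
    induction k with
    | zero => intro x m; rfl
    | succ k ih => intro x m; rw [unz_succ, List.length_cons, ih]
  · intro s
    induction s with
    | zero => intro k l x y m n _ _ _; rw [negD_zero, pow_zero]; omega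
    | succ s ih =>
      intro k l x y m n hk hl hM
      obtain ⟨k, rfl⟩ : ∃ k', k = k' + 1 := ⟨k - 1, by omega⟩
      obtain ⟨l, rfl⟩ : ∃ l', l = l' + 1 := ⟨l - 1, by omega⟩
      unfold Mat at hM
      rw [unz_succ, unz_succ, List.take_succ_cons, List.take_succ_cons, List.zip_cons_cons] at hM
      have h1 : y % 8 = neg (x % 8) := hM _ (List.mem_cons_self)
      have h2 : Mat s (unz k (x / 8) (m / 8)) (unz l (y / 8) (n / 8)) :=
        fun z hz => hM z (List.mem_cons_of_mem _ hz)
      have h3 := ih k l (x / 8) (y / 8) (m / 8) (n / 8) (by omega) (by omega) h2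
      rw [negD_succ, h3, ← h1, pow_succ', Nat.mod_mul]

end Pool.Agent.W236.NS
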